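import Pool.Agent.H73.TP.Solid

/-!
# Minors of order two, and the rows of the triangle
-/

set_option autoImplicit false

open Polynomial

namespace Pool.Agent.H73.TP

/-- 2 x 2 determinant of coefficients. -/
noncomputable def w2 (j : ℕ) (f g : ℝ[X]) : ℝ :=
  f.coeff j * g.coeff (j + 1) - f.coeff (j + 1) * g.coeff j

theorem w2_add (j : ℕ) (f g g' : ℝ[X]) : w2 j f (g + g') = w2 j f g + w2 j f g' := by
  simp only [w2, coeff_add]; ring

theorem w2_C (j : ℕ) (c : ℝ) (f g : ℝ[X]) : w2 j f (C c * g) = c * w2 j f g := by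
  simp only [w2, coeff_C_mul]; ring

theorem w2_self (j : ℕ) (f : ℝ[X]) : w2 j f f = 0 := by simp only [w2]; ring

theorem w2_sum {ι : Type*} (j : ℕ) (f : ℝ[X]) (s : Finset ι) (g : ι → ℝ[X]) :
    w2 j f (∑ i ∈ s, g i) = ∑ i ∈ s, w2 j f (g i) := by
  classical
  induction s using Finset.induction_on with
  | empty => simp [w2]
  | insert i s hi ih => rw [Finset.sum_insert hi, Finset.sum_insert hi, w2_add, ih]

noncomputable def tz2 (j : ℕ) (G : ℝ[X]) (a b : ℕ) : ℝ := w2 j (X ^ a * G) (X ^ b * G)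

variable {ι : Type*} [DecidableEq ι] (y : ι → ℝ)

theorem tz2_insert (j : ℕ) {s : Finset ι} {i : ι} (hi : i ∉ s) (a b : ℕ) :
    tz2 j (pr y (insert i s)) a b = tz2 j (pr y s) a b + y i * tz2 j (pr y s) a (b + 1)
      + y i * tz2 j (pr y s) (a + 1) b + y i ^ 2 * tz2 j (pr y s) (a + 1) (b + 1) := by
  have hX : ∀ e : ℕ, X ^ e * pr y (insert i s)
      = X ^ e * pr y s + C (y i) * (X ^ (e + 1) * pr y s) := by
    intro e; rw [pr_insert y hi]; ring
  simp only [tz2, hX, w2, coeff_add, coeff_C_mul]; ring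

theorem tz2_nonneg (s : Finset ι) :
    (∀ i ∈ s, 0 ≤ y i) → ∀ j a b, a ≤ b → 0 ≤ tz2 j (pr y s) a b := by
  induction s using Finset.induction_on with
  | empty =>
    intro _ j a b hab
    by_cases h1 : a = b
    · subst h1; unfold tz2; rw [w2_self]
    simp only [tz2, pr, Finset.prod_empty, mul_one, w2, coeff_X_pow]
    split_ifs <;> first | omega | norm_num
  | insert i s hi ih =>
    intro hy j a b hab
    by_cases h1 : a = b
    · subst h1; unfold tz2; rw [w2_self]
    have ih' := ih (fun j hj => hy j (Finset.mem_insert_of_mem hj))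
    have hyi : 0 ≤ y i := hy i (Finset.mem_insert_self _ _)
    rw [tz2_insert y j hi]
    have t1 := ih' j a b hab
    have t2 := ih' j a (b + 1) (by omega)
    have t3 := ih' j (a + 1) b (by omega)
    have t4 := ih' j (a + 1) (b + 1) (by omega)
    positivity

theorem tz2_pos (s : Finset ι) :
    (∀ i ∈ s, 0 < y i) → ∀ j, j ≤ s.card → 0 < tz2 j (pr y s) 0 1 := by
  induction s using Finset.induction_on with
  | empty =>
    intro _ j hj
    simp only [Finset.card_empty, nonpos_iff_eq_zero] at hj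
    subst hj
    simp [tz2, pr, w2, coeff_X]
  | insert i s hi ih =>
    intro hy j hj
    have hy' : ∀ k ∈ s, 0 < y k := fun k hk => hy k (Finset.mem_insert_of_mem hk)
    have ih' := ih hy'
    have hyi : 0 < y i := hy i (Finset.mem_insert_self _ _)
    rw [Finset.card_insert_of_notMem hi] at hj
    have hn := tz2_nonneg y s (fun k hk => (hy' k hk).le)
    rw [tz2_insert y j hi]
    have t1 := hn j 0 1 (by norm_num)
    have t2 := hn j 0 2 (by norm_num)
    have t3 := hn j 1 1 le_rfl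
    have t4 := hn j 1 2 (by norm_num)
    rcases Nat.lt_or_ge s.card j with h | h
    · obtain ⟨j, rfl⟩ : ∃ l, j = l + 1 := ⟨j - 1, by omega⟩
      have e : tz2 (j + 1) (pr y s) 1 2 = tz2 j (pr y s) 0 1 := by
        have e1 : ∀ k, (X ^ 1 * pr y s).coeff (k + 1) = (X ^ 0 * pr y s).coeff k := by
          intro k; rw [pow_one, coeff_X_mul]; simp
        have e2 : ∀ k, (X ^ 2 * pr y s).coeff (k + 1) = (X ^ 1 * pr y s).coeff k := by
          intro k
          have : X ^ 2 * pr y s = X * (X ^ 1 * pr y s) := by ring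
          rw [this, coeff_X_mul]
        unfold tz2 w2
        rw [e2 (j + 1), e2 j, e1 (j + 1), e1 j]
      have t5 := ih' j (by omega)
      rw [← e] at t5
      have : 0 < y i ^ 2 * tz2 (j + 1) (pr y s) 1 2 := by positivity
      have h2 : 0 ≤ y i * tz2 (j + 1) (pr y s) 0 (1 + 1) := mul_nonneg hyi.le t2
      have h3 : 0 ≤ y i * tz2 (j + 1) (pr y s) (0 + 1) 1 := mul_nonneg hyi.le t3
      have h4 : y i ^ 2 * tz2 (j + 1) (pr y s) (0 + 1) (1 + 1)
        = y i ^ 2 * tz2 (j + 1) (pr y s) 1 2 := rfl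
      linarith
    · have t5 := ih' j h
      have h2 : 0 ≤ y i * tz2 j (pr y s) 0 (1 + 1) := mul_nonneg hyi.le t2
      have h3 : 0 ≤ y i * tz2 j (pr y s) (0 + 1) 1 := mul_nonneg hyi.le t3
      have h4 : 0 ≤ y i ^ 2 * tz2 j (pr y s) (0 + 1) (1 + 1) := mul_nonneg (by positivity) t4
      linarith

/-- Consecutive rows: minors of order two are positive. -/
theorem solid2_pos (s : Finset ι) (j : ℕ) {q : ℝ} (hq : 0 < q) (hy : ∀ i ∈ s, 0 < y i)
    (hj : j ≤ s.card) : 0 < w2 j (pr y s) (opA (s.card + q) (pr y s)) := by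
  rw [opA_pr, w2_add, w2_add, w2_self, w2_C, w2_sum, add_sub_cancel_left, zero_add]
  have h1 : 0 < w2 j (pr y s) (X * pr y s) := by
    have := tz2_pos y s hy j hj
    simpa [tz2] using this
  have h2 : 0 ≤ ∑ i ∈ s, w2 j (pr y s) (C (1 + y i) * (X * pr y (s.erase i))) := by
    refine Finset.sum_nonneg fun i hi => ?_
    rw [w2_C]
    refine mul_nonneg (by linarith [hy i hi]) ?_
    have hT := tz2_nonneg y (s.erase i) (fun k hk => (hy k (Finset.mem_of_mem_erase hk)).le) j 0 1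
      (by norm_num)
    have : w2 j (pr y s) (X * pr y (s.erase i)) = tz2 j (pr y (s.erase i)) 0 1 := by
      rw [pr_erase y hi]
      have : ((1 + C (y i) * X) * pr y (s.erase i) : ℝ[X])
          = X ^ 0 * pr y (s.erase i) + C (y i) * (X ^ 1 * pr y (s.erase i)) := by ring
      rw [this, show (X * pr y (s.erase i) : ℝ[X]) = X ^ 1 * pr y (s.erase i) by ring]
      simp only [tz2, w2, coeff_add, coeff_C_mul]; ring
    rw [this]; exact hT
  have : 0 < q * w2 j (pr y s) (X * pr y s) := by positivity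
  linarith

/-- Row `n + 1` of the triangle. -/
noncomputable def rowP (r : ℕ) : ℕ → ℝ[X]
  | 0 => 1
  | n + 1 => opA ((r : ℝ) * (n + 1)) (rowP r n)

theorem rowP_prod (r : ℕ) (hr : 1 ≤ r) : ∀ n, ∃ y : Fin n → ℝ, (∀ i, 0 < y i) ∧
    rowP r n = pr y Finset.univ
  | 0 => ⟨fun _ => 1, fun _ => one_pos, by simp [rowP, pr]⟩
  | n + 1 => by
    obtain ⟨y, hy, hyp⟩ := rowP_prod r hr n
    have hN : (n : ℝ) < (r : ℝ) * (n + 1) := by
      have : (1 : ℝ) ≤ r := by exact_mod_cast hr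
      nlinarith [Nat.cast_nonneg (α := ℝ) n]
    obtain ⟨y', hy', h⟩ := opA_prod n y hy _ hN
    exact ⟨y', hy', by rw [rowP, hyp, h]⟩

theorem rowP_pos (r : ℕ) (hr : 1 ≤ r) (n k : ℕ) (hk : k ≤ n) : 0 < (rowP r n).coeff k := by
  obtain ⟨y, hy, hyp⟩ := rowP_prod r hr n
  rw [hyp]
  exact pr_coeff_pos y _ (fun i _ => hy i) k (by simpa using hk)

theorem rowP_zero (r : ℕ) (hr : 1 ≤ r) (n k : ℕ) (hk : n < k) : (rowP r n).coeff k = 0 := by
  obtain ⟨y, hy, hyp⟩ := rowP_prod r hr n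
  rw [hyp]
  exact pr_coeff_gt y _ k (by simpa using hk)

theorem rowP_two (r : ℕ) (hr : 1 ≤ r) (n k : ℕ) (hk : k ≤ n) :
    0 < w2 k (rowP r n) (rowP r (n + 1)) := by
  obtain ⟨y, hy, hyp⟩ := rowP_prod r hr n
  have hr1 : (1 : ℝ) ≤ r := by exact_mod_cast hr
  have hn0 : (0 : ℝ) ≤ n := Nat.cast_nonneg n
  have h := solid2_pos y Finset.univ k (q := (r : ℝ) * (n + 1) - n) (by nlinarith)
    (fun i _ => hy i) (by simpa using hk)
  rw [← hyp] at h
  have e : ((Finset.univ : Finset (Fin n)).card : ℝ) + ((r : ℝ) * (n + 1) - n) = (r : ℝ) * (n + 1) := by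
    simp
  rw [e] at h
  exact h

theorem rowP_three (r : ℕ) (hr : 1 ≤ r) (n k : ℕ) :
    0 ≤ w3 k (rowP r n) (rowP r (n + 1)) (rowP r (n + 2)) := by
  obtain ⟨y, hy, hyp⟩ := rowP_prod r hr n
  have hr1 : (1 : ℝ) ≤ r := by exact_mod_cast hr
  have hn0 : (0 : ℝ) ≤ n := Nat.cast_nonneg n
  have h := solid_nonneg y Finset.univ k (q := (r : ℝ) * (n + 1) - n) (r := r) (by nlinarith)
    (by linarith) (by nlinarith) (fun i _ => (hy i).le)
  rw [← hyp] at h
  have e : ((Finset.univ : Finset (Fin n)).card : ℝ) + ((r : ℝ) * (n + 1) - n) = (r : ℝ) * (n + 1) := by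
    simp
  rw [e] at h
  have e2 : (r : ℝ) * (n + 1) + r = (r : ℝ) * (((n + 1 : ℕ) : ℝ) + 1) := by push_cast; ring
  rw [e2] at h
  exact h

end Pool.Agent.H73.TP
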