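import Mathlib

/-!
# From solid minors to all minors of order at most three (lower triangular shape)

`a n k` is positive for `k <= n` and zero for `k > n`.
-/

set_option autoImplicit false

namespace Pool.Agent.H73.TP

/-- 2 x 2 minor. -/
def m2 (a : ℕ → ℕ → ℝ) (n m k l : ℕ) : ℝ := a n k * a m l - a n l * a m k

/-- 3 x 3 minor. -/
def m3 (a : ℕ → ℕ → ℝ) (n1 n2 n3 k1 k2 k3 : ℕ) : ℝ :=
  a n1 k1 * (a n2 k2 * a n3 k3 - a n2 k3 * a n3 k2)
    - a n1 k2 * (a n2 k1 * a n3 k3 - a n2 k3 * a n3 k1)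
    + a n1 k3 * (a n2 k1 * a n3 k2 - a n2 k2 * a n3 k1)

variable {a : ℕ → ℕ → ℝ}

theorem m2_row_pos (hp : ∀ n k, k ≤ n → 0 < a n k)
    (h2 : ∀ n k, k ≤ n → 0 < m2 a n (n + 1) k (k + 1)) (n k : ℕ) (hk : k ≤ n) :
    ∀ d, k + d + 1 ≤ n + 1 → 0 < m2 a n (n + 1) k (k + d + 1) := by
  intro d
  induction d with
  | zero => intro _; simpa using h2 n k hk
  | succ d ih =>
    intro hd
    have ih' := ih (by omega)
    have hA := h2 n (k + d + 1) (by omega)
    have hB : 0 < a (n + 1) (k + d + 1) := hp _ _ (by omega)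
    have hC : 0 < a (n + 1) (k + d + 1 + 1) := hp _ _ (by omega)
    have hD : 0 < a (n + 1) k := hp _ _ (by omega)
    have hid : m2 a n (n + 1) k (k + d + 1 + 1) * a (n + 1) (k + d + 1)
        = m2 a n (n + 1) k (k + d + 1) * a (n + 1) (k + d + 1 + 1)
          + a (n + 1) k * m2 a n (n + 1) (k + d + 1) (k + d + 1 + 1) := by
      unfold m2; ring
    have hpos : 0 < m2 a n (n + 1) k (k + d + 1 + 1) * a (n + 1) (k + d + 1) := by
      rw [hid]; positivity
    have := (mul_pos_iff_of_pos_right hB).mp hpos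
    simpa [add_assoc] using this

theorem m2_pos (hp : ∀ n k, k ≤ n → 0 < a n k) (hz : ∀ n k, n < k → a n k = 0)
    (h2 : ∀ n k, k ≤ n → 0 < m2 a n (n + 1) k (k + 1)) {n m k l : ℕ} (hnm : n < m) (hkl : k < l)
    (hk : k ≤ n) (hl : l ≤ m) : 0 < m2 a n m k l := by
  obtain ⟨e, rfl⟩ := Nat.exists_eq_add_of_lt hnm
  have key : ∀ e, ∀ l, k < l → l ≤ n + e + 1 → 0 < m2 a n (n + e + 1) k l := by
    intro e
    induction e with
    | zero =>
      intro l hkl hl
      obtain ⟨d, rfl⟩ := Nat.exists_eq_add_of_lt hkl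
      simpa using m2_row_pos hp h2 n k hk d (by omega)
    | succ e ih =>
      intro l hkl hl
      have hB : 0 < a (n + e + 1) k := hp _ _ (by omega)
      have hC : 0 < a (n + e + 1 + 1) k := hp _ _ (by omega)
      have hD : 0 < a n k := hp _ _ hk
      have hq : 0 < m2 a (n + e + 1) (n + e + 1 + 1) k l := by
        obtain ⟨d, rfl⟩ := Nat.exists_eq_add_of_lt hkl
        exact m2_row_pos hp h2 (n + e + 1) k (by omega) d (by omega)
      have hr : 0 ≤ m2 a n (n + e + 1) k l := by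
        by_cases h : l ≤ n + e + 1
        · exact (ih l hkl h).le
        · have h1 : a n l = 0 := hz _ _ (by omega)
          have h2' : a (n + e + 1) l = 0 := hz _ _ (by omega)
          unfold m2; rw [h1, h2']; simp
      have hid : m2 a n (n + e + 1 + 1) k l * a (n + e + 1) k
          = m2 a n (n + e + 1) k l * a (n + e + 1 + 1) k
            + a n k * m2 a (n + e + 1) (n + e + 1 + 1) k l := by
        unfold m2; ring
      have hpos : 0 < m2 a n (n + e + 1 + 1) k l * a (n + e + 1) k := by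
        rw [hid]; positivity
      have := (mul_pos_iff_of_pos_right hB).mp hpos
      simpa [add_assoc] using this
  exact key e l hkl hl

theorem m2_nonneg (hp : ∀ n k, k ≤ n → 0 < a n k) (hz : ∀ n k, n < k → a n k = 0)
    (h2 : ∀ n k, k ≤ n → 0 < m2 a n (n + 1) k (k + 1)) {n m k l : ℕ} (hnm : n < m) (hkl : k < l) :
    0 ≤ m2 a n m k l := by
  by_cases hk : k ≤ n
  · by_cases hl : l ≤ m
    · exact (m2_pos hp hz h2 hnm hkl hk hl).le
    · have h1 : a n l = 0 := hz _ _ (by omega)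
      have h2' : a m l = 0 := hz _ _ (by omega)
      unfold m2; rw [h1, h2']; simp
  · have h1 : a n k = 0 := hz _ _ (by omega)
    have h2' : a n l = 0 := hz _ _ (by omega)
    unfold m2; rw [h1, h2']; simp

/-- Minors with three consecutive rows. -/
theorem m3_rows (hp : ∀ n k, k ≤ n → 0 < a n k) (hz : ∀ n k, n < k → a n k = 0)
    (h2 : ∀ n k, k ≤ n → 0 < m2 a n (n + 1) k (k + 1))
    (h3 : ∀ n k, 0 ≤ m3 a n (n + 1) (n + 2) k (k + 1) (k + 2)) (n : ℕ) :
    ∀ s k1 k2 k3 : ℕ, k1 < k2 → k2 < k3 → k3 - k1 ≤ s →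
      0 ≤ m3 a n (n + 1) (n + 2) k1 k2 k3 := by
  intro s
  induction s with
  | zero => intro k1 k2 k3 h h' hs; omega
  | succ s ih =>
    intro k1 k2 k3 h12 h23 hs
    by_cases c1 : k1 ≤ n
    swap
    · have e1 : a n k1 = 0 := hz _ _ (by omega)
      have e2 : a n k2 = 0 := hz _ _ (by omega)
      have e3 : a n k3 = 0 := hz _ _ (by omega)
      unfold m3; rw [e1, e2, e3]; simp
    by_cases c2 : k2 ≤ n + 1
    swap
    · have e1 : a n k2 = 0 := hz _ _ (by omega)
      have e2 : a n k3 = 0 := hz _ _ (by omega)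
      have e3 : a (n + 1) k2 = 0 := hz _ _ (by omega)
      have e4 : a (n + 1) k3 = 0 := hz _ _ (by omega)
      unfold m3; rw [e1, e2, e3, e4]; simp
    by_cases c3 : k3 ≤ n + 2
    swap
    · have e1 : a n k3 = 0 := hz _ _ (by omega)
      have e2 : a (n + 1) k3 = 0 := hz _ _ (by omega)
      have e3 : a (n + 2) k3 = 0 := hz _ _ (by omega)
      unfold m3; rw [e1, e2, e3]; simp
    by_cases g2 : k3 = k2 + 1
    · by_cases g1 : k2 = k1 + 1
      · subst g1; subst g2; exact h3 n k1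
      · -- insert `y = k1 + 1`
        have hy : 0 < m2 a (n + 1) (n + 2) (k1 + 1) k2 :=
          m2_pos hp hz h2 (by omega) (by omega) (by omega) (by omega)
        have t1 : 0 ≤ m3 a n (n + 1) (n + 2) (k1 + 1) k2 k3 := ih _ _ _ (by omega) (by omega) (by omega)
        have t2 : 0 ≤ m3 a n (n + 1) (n + 2) k1 (k1 + 1) k2 := ih _ _ _ (by omega) (by omega) (by omega)
        have t3 : 0 ≤ m2 a (n + 1) (n + 2) k1 k2 := m2_nonneg hp hz h2 (by omega) h12
        have t4 : 0 ≤ m2 a (n + 1) (n + 2) k2 k3 := m2_nonneg hp hz h2 (by omega) h23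
        have hid : m3 a n (n + 1) (n + 2) k1 k2 k3 * m2 a (n + 1) (n + 2) (k1 + 1) k2
            = m3 a n (n + 1) (n + 2) (k1 + 1) k2 k3 * m2 a (n + 1) (n + 2) k1 k2
              + m3 a n (n + 1) (n + 2) k1 (k1 + 1) k2 * m2 a (n + 1) (n + 2) k2 k3 := by
          unfold m3 m2; ring
        have : 0 ≤ m3 a n (n + 1) (n + 2) k1 k2 k3 * m2 a (n + 1) (n + 2) (k1 + 1) k2 := by
          rw [hid]; positivity
        exact nonneg_of_mul_nonneg_left this hy
    · obtain ⟨z, rfl⟩ : ∃ z, k3 = z + 1 := ⟨k3 - 1, by omega⟩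
      have hy : 0 < m2 a (n + 1) (n + 2) k2 z :=
        m2_pos hp hz h2 (by omega) (by omega) (by omega) (by omega)
      have t1 : 0 ≤ m3 a n (n + 1) (n + 2) k1 k2 z := ih _ _ _ (by omega) (by omega) (by omega)
      have t2 : 0 ≤ m3 a n (n + 1) (n + 2) k2 z (z + 1) := ih _ _ _ (by omega) (by omega) (by omega)
      have t3 : 0 ≤ m2 a (n + 1) (n + 2) k2 (z + 1) := m2_nonneg hp hz h2 (by omega) h23
      have t4 : 0 ≤ m2 a (n + 1) (n + 2) k1 k2 := m2_nonneg hp hz h2 (by omega) h12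
      have hid : m3 a n (n + 1) (n + 2) k1 k2 (z + 1) * m2 a (n + 1) (n + 2) k2 z
          = m3 a n (n + 1) (n + 2) k1 k2 z * m2 a (n + 1) (n + 2) k2 (z + 1)
            + m2 a (n + 1) (n + 2) k1 k2 * m3 a n (n + 1) (n + 2) k2 z (z + 1) := by
        unfold m3 m2; ring
      have : 0 ≤ m3 a n (n + 1) (n + 2) k1 k2 (z + 1) * m2 a (n + 1) (n + 2) k2 z := by
        rw [hid]; positivity
      exact nonneg_of_mul_nonneg_left this hy

/-- All minors of order three. -/
theorem m3_nonneg (hp : ∀ n k, k ≤ n → 0 < a n k) (hz : ∀ n k, n < k → a n k = 0)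
    (h2 : ∀ n k, k ≤ n → 0 < m2 a n (n + 1) k (k + 1))
    (h3 : ∀ n k, 0 ≤ m3 a n (n + 1) (n + 2) k (k + 1) (k + 2)) :
    ∀ s n1 n2 n3 k1 k2 k3 : ℕ, n1 < n2 → n2 < n3 → k1 < k2 → k2 < k3 → n3 - n1 ≤ s →
      0 ≤ m3 a n1 n2 n3 k1 k2 k3 := by
  intro s
  induction s with
  | zero => intro n1 n2 n3 k1 k2 k3 h h'; omega
  | succ s ih =>
    intro n1 n2 n3 k1 k2 k3 hn12 hn23 h12 h23 hs
    by_cases c1 : k1 ≤ n1
    swap
    · have e1 : a n1 k1 = 0 := hz _ _ (by omega)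
      have e2 : a n1 k2 = 0 := hz _ _ (by omega)
      have e3 : a n1 k3 = 0 := hz _ _ (by omega)
      unfold m3; rw [e1, e2, e3]; simp
    by_cases c2 : k2 ≤ n2
    swap
    · have e1 : a n1 k2 = 0 := hz _ _ (by omega)
      have e2 : a n1 k3 = 0 := hz _ _ (by omega)
      have e3 : a n2 k2 = 0 := hz _ _ (by omega)
      have e4 : a n2 k3 = 0 := hz _ _ (by omega)
      unfold m3; rw [e1, e2, e3, e4]; simp
    by_cases c3 : k3 ≤ n3
    swap
    · have e1 : a n1 k3 = 0 := hz _ _ (by omega)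
      have e2 : a n2 k3 = 0 := hz _ _ (by omega)
      have e3 : a n3 k3 = 0 := hz _ _ (by omega)
      unfold m3; rw [e1, e2, e3]; simp
    by_cases g2 : n3 = n2 + 1
    · by_cases g1 : n2 = n1 + 1
      · subst g1; subst g2
        exact m3_rows hp hz h2 h3 n1 (k3 - k1) k1 k2 k3 h12 h23 le_rfl
      · have hy : 0 < m2 a (n1 + 1) n2 k1 k2 :=
          m2_pos hp hz h2 (by omega) h12 (by omega) (by omega)
        have t1 : 0 ≤ m3 a (n1 + 1) n2 n3 k1 k2 k3 :=
          ih _ _ _ _ _ _ (by omega) (by omega) h12 h23 (by omega)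
        have t2 : 0 ≤ m3 a n1 (n1 + 1) n2 k1 k2 k3 :=
          ih _ _ _ _ _ _ (by omega) (by omega) h12 h23 (by omega)
        have t3 : 0 ≤ m2 a n1 n2 k1 k2 := m2_nonneg hp hz h2 hn12 h12
        have t4 : 0 ≤ m2 a n2 n3 k1 k2 := m2_nonneg hp hz h2 hn23 h12
        have hid : m3 a n1 n2 n3 k1 k2 k3 * m2 a (n1 + 1) n2 k1 k2
            = m3 a (n1 + 1) n2 n3 k1 k2 k3 * m2 a n1 n2 k1 k2
              + m3 a n1 (n1 + 1) n2 k1 k2 k3 * m2 a n2 n3 k1 k2 := by
          unfold m3 m2; ring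
        have : 0 ≤ m3 a n1 n2 n3 k1 k2 k3 * m2 a (n1 + 1) n2 k1 k2 := by
          rw [hid]; positivity
        exact nonneg_of_mul_nonneg_left this hy
    · obtain ⟨z, rfl⟩ : ∃ z, n3 = z + 1 := ⟨n3 - 1, by omega⟩
      have hy : 0 < m2 a n2 z k1 k2 :=
        m2_pos hp hz h2 (by omega) h12 (by omega) (by omega)
      have t1 : 0 ≤ m3 a n1 n2 z k1 k2 k3 :=
        ih _ _ _ _ _ _ (by omega) (by omega) h12 h23 (by omega)
      have t2 : 0 ≤ m3 a n2 z (z + 1) k1 k2 k3 :=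
        ih _ _ _ _ _ _ (by omega) (by omega) h12 h23 (by omega)
      have t3 : 0 ≤ m2 a n2 (z + 1) k1 k2 := m2_nonneg hp hz h2 hn23 h12
      have t4 : 0 ≤ m2 a n1 n2 k1 k2 := m2_nonneg hp hz h2 hn12 h12
      have hid : m3 a n1 n2 (z + 1) k1 k2 k3 * m2 a n2 z k1 k2
          = m3 a n1 n2 z k1 k2 k3 * m2 a n2 (z + 1) k1 k2
            + m2 a n1 n2 k1 k2 * m3 a n2 z (z + 1) k1 k2 k3 := by
        unfold m3 m2; ring
      have : 0 ≤ m3 a n1 n2 (z + 1) k1 k2 k3 * m2 a n2 z k1 k2 := by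
        rw [hid]; positivity
      exact nonneg_of_mul_nonneg_left this hy

end Pool.Agent.H73.TP
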