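import Mathlib

/-!
# The operator `A_N f = (1 + N t) f + t (1 - t) f'` on products of `1 + y_i t`
-/

set_option autoImplicit false

open Polynomial

namespace Pool.Agent.H73.TP

/-- `A_N f = (1 + N t) f + t (1 - t) f'`. -/
noncomputable def opA (N : ℝ) (f : ℝ[X]) : ℝ[X] :=
  (1 + C N * X) * f + (X - X ^ 2) * derivative f

theorem opA_coeff_zero (N : ℝ) (f : ℝ[X]) : (opA N f).coeff 0 = f.coeff 0 := by
  have h : opA N f = f + X * (C N * f + (1 - X) * derivative f) := by unfold opA; ring
  rw [h, coeff_add, coeff_X_mul_zero]; simp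

theorem opA_coeff_succ (N : ℝ) (f : ℝ[X]) (k : ℕ) :
    (opA N f).coeff (k + 1) = ((k : ℝ) + 2) * f.coeff (k + 1) + (N - k) * f.coeff k := by
  have h : opA N f = f + X * (C N * f) + X * derivative f - X * (X * derivative f) := by
    unfold opA; ring
  rw [h, coeff_sub, coeff_add, coeff_add, coeff_X_mul, coeff_X_mul, coeff_X_mul, coeff_C_mul,
    coeff_derivative]
  rcases k with _ | k
  · rw [coeff_X_mul_zero]; push_cast; ring
  · rw [coeff_X_mul, coeff_derivative]; push_cast; ring

theorem opA_X_mul (N : ℝ) (g : ℝ[X]) : opA N (X * g) = X * opA (N - 1) g + X * g := by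
  unfold opA
  rw [derivative_mul, derivative_X, C_sub, C_1]; ring

theorem opA_add (N : ℝ) (f g : ℝ[X]) : opA N (f + g) = opA N f + opA N g := by
  unfold opA; rw [derivative_add]; ring

theorem opA_C_mul (N c : ℝ) (f : ℝ[X]) : opA N (C c * f) = C c * opA N f := by
  unfold opA; rw [derivative_C_mul]; ring

theorem opA_sum {ι : Type*} (N : ℝ) (s : Finset ι) (f : ι → ℝ[X]) :
    opA N (∑ i ∈ s, f i) = ∑ i ∈ s, opA N (f i) := by
  unfold opA
  rw [derivative_sum, Finset.mul_sum, Finset.mul_sum, ← Finset.sum_add_distrib]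

/-- The product of `1 + y_i t` over `s`. -/
noncomputable def pr {ι : Type*} (y : ι → ℝ) (s : Finset ι) : ℝ[X] := ∏ i ∈ s, (1 + C (y i) * X)

section
variable {ι : Type*} [DecidableEq ι] (y : ι → ℝ)

theorem pr_erase {s : Finset ι} {i : ι} (hi : i ∈ s) :
    pr y s = (1 + C (y i) * X) * pr y (s.erase i) := by
  unfold pr; rw [Finset.mul_prod_erase s (fun i => 1 + C (y i) * X) hi]

theorem pr_deriv (s : Finset ι) :
    derivative (pr y s) = ∑ i ∈ s, C (y i) * pr y (s.erase i) := by
  unfold pr
  rw [derivative_prod_finset]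
  refine Finset.sum_congr rfl fun i _ => ?_
  have h : derivative (1 + C (y i) * X : ℝ[X]) = C (y i) := by
    rw [derivative_add, derivative_one, derivative_C_mul, derivative_X]; ring
  rw [h]; ring

/-- `A_N f = f + q t f + sum (1 + y_i) t f_i`, `q = N - m`. -/
theorem opA_pr (N : ℝ) (s : Finset ι) :
    opA N (pr y s) = pr y s + C (N - s.card) * (X * pr y s)
      + ∑ i ∈ s, C (1 + y i) * (X * pr y (s.erase i)) := by
  have h1 : ∀ i ∈ s, C (1 + y i) * (X * pr y (s.erase i))
      = X * pr y s + (X - X ^ 2) * (C (y i) * pr y (s.erase i)) := by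
    intro i hi
    rw [pr_erase y hi, C_add, C_1]; ring
  rw [Finset.sum_congr rfl h1, Finset.sum_add_distrib,
    ← Finset.mul_sum s (fun i => C (y i) * pr y (s.erase i)) (X - X ^ 2), ← pr_deriv,
    Finset.sum_const, nsmul_eq_mul]
  unfold opA
  rw [C_sub]
  have : (C (s.card : ℝ) : ℝ[X]) = (s.card : ℝ[X]) := by simp
  rw [this]; ring

end

/-- A real polynomial with constant term one whose complex zeros are all negative reals. -/
theorem exists_prod (n : ℕ) : ∀ p : ℝ[X], p.natDegree = n → p.coeff 0 = 1 →
    (∀ z : ℂ, aeval z p = 0 → z.im = 0 ∧ z.re < 0) →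
    ∃ y : Fin n → ℝ, (∀ i, 0 < y i) ∧ p = pr y Finset.univ := by
  induction n with
  | zero =>
    intro p hd h0 _
    refine ⟨fun i => 1, fun i => one_pos, ?_⟩
    rw [eq_C_of_natDegree_eq_zero hd, h0]
    simp [pr]
  | succ n ih =>
    intro p hd h0 hz
    have hdeg : 0 < (p.map (algebraMap ℝ ℂ)).degree := by
      rw [degree_map]
      exact natDegree_pos_iff_degree_pos.mp (by omega)
    obtain ⟨z, hzr⟩ := Complex.exists_root hdeg
    have hz0 : aeval z p = 0 := by
      rw [aeval_def, ← eval_map]; exact hzr
    obtain ⟨him, hre⟩ := hz z hz0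
    have hzeq : z = ((z.re : ℝ) : ℂ) := Complex.ext (by simp) (by simp [him])
    have hroot : p.IsRoot z.re := by
      have : (algebraMap ℝ ℂ) (p.eval z.re) = 0 := by
        rw [← hz0]
        conv_rhs => rw [hzeq]
        rw [aeval_def, ← Complex.coe_algebraMap, eval₂_at_apply]
      exact (map_eq_zero_iff _ (algebraMap ℝ ℂ).injective).mp this
    obtain ⟨q, hq⟩ := dvd_iff_isRoot.mpr hroot
    have hx : z.re ≠ 0 := hre.ne
    -- `X - x = -x (1 + (-1/x) X)`
    set x : ℝ := z.re with hxd
    have hfac : p = (1 + C (-x⁻¹) * X) * (C (-x) * q) := by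
      rw [hq]
      have : (X - C x : ℝ[X]) = C (-x) * (1 + C (-x⁻¹) * X) := by
        rw [mul_add, mul_one, ← mul_assoc, ← C_mul]
        have : -x * -x⁻¹ = 1 := by field_simp
        rw [this, C_1, one_mul, C_neg]; ring
      rw [this]; ring
    set p2 : ℝ[X] := C (-x) * q with hp2
    have hpne : p ≠ 0 := by
      intro h; rw [h] at h0; simp at h0
    have hp2ne : p2 ≠ 0 := by
      intro h; rw [h, mul_zero] at hfac; exact hpne hfac
    have hlin : (1 + C (-x⁻¹) * X : ℝ[X]).natDegree = 1 := by
      have : (1 + C (-x⁻¹) * X : ℝ[X]) = C (-x⁻¹) * X + C 1 := by rw [C_1]; ring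
      rw [this]
      exact natDegree_linear (by simpa using hx)
    have hlinne : (1 + C (-x⁻¹) * X : ℝ[X]) ≠ 0 := by
      intro h; rw [h] at hlin; simp at hlin
    have hd2 : p2.natDegree = n := by
      have := natDegree_mul hlinne hp2ne
      rw [← hfac, hd, hlin] at this; omega
    have h02 : p2.coeff 0 = 1 := by
      have : p.coeff 0 = p2.coeff 0 := by
        conv_lhs => rw [hfac]
        rw [mul_coeff_zero]; simp
      rw [← this, h0]
    have hz2 : ∀ w : ℂ, aeval w p2 = 0 → w.im = 0 ∧ w.re < 0 := by
      intro w hw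
      apply hz w
      rw [hfac, map_mul, hw, mul_zero]
    obtain ⟨y, hy, hyp⟩ := ih p2 hd2 h02 hz2
    refine ⟨Fin.cons (-x⁻¹) y, ?_, ?_⟩
    · intro i
      refine Fin.cases ?_ (fun i => ?_) i
      · simp only [Fin.cons_zero]
        have : x⁻¹ < 0 := inv_lt_zero.mpr hre
        linarith
      · simpa using hy i
    · rw [hfac, hyp]
      unfold pr
      rw [Fin.prod_univ_succ]
      simp

section
variable {ι : Type*} [DecidableEq ι] (y : ι → ℝ)

theorem pr_insert {s : Finset ι} {i : ι} (hi : i ∉ s) :
    pr y (insert i s) = (1 + C (y i) * X) * pr y s := by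
  unfold pr; rw [Finset.prod_insert hi]

theorem lin_mul_coeff_zero (c : ℝ) (p : ℝ[X]) : ((1 + C c * X) * p).coeff 0 = p.coeff 0 := by
  rw [mul_coeff_zero]; simp

theorem lin_mul_coeff_succ (c : ℝ) (p : ℝ[X]) (k : ℕ) :
    ((1 + C c * X) * p).coeff (k + 1) = p.coeff (k + 1) + c * p.coeff k := by
  have : (1 + C c * X) * p = p + C c * (X * p) := by ring
  rw [this, coeff_add, coeff_C_mul, coeff_X_mul]

theorem pr_coeff_zero (s : Finset ι) : (pr y s).coeff 0 = 1 := by
  induction s using Finset.induction_on with
  | empty => simp [pr]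
  | insert i s hi ih => rw [pr_insert y hi, lin_mul_coeff_zero, ih]

theorem pr_coeff_gt (s : Finset ι) : ∀ k, s.card < k → (pr y s).coeff k = 0 := by
  induction s using Finset.induction_on with
  | empty =>
    intro k hk
    simp only [Finset.card_empty] at hk
    simp [pr, coeff_one, hk.ne']
  | insert i s hi ih =>
    intro k hk
    rw [Finset.card_insert_of_notMem hi] at hk
    obtain ⟨k, rfl⟩ : ∃ l, k = l + 1 := ⟨k - 1, by omega⟩
    rw [pr_insert y hi, lin_mul_coeff_succ, ih _ (by omega), ih _ (by omega)]; ring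

theorem pr_coeff_pos (s : Finset ι) : (∀ i ∈ s, 0 < y i) → ∀ k, k ≤ s.card → 0 < (pr y s).coeff k := by
  induction s using Finset.induction_on with
  | empty =>
    intro _ k hk
    simp only [Finset.card_empty, nonpos_iff_eq_zero] at hk
    subst hk; simp [pr]
  | insert i s hi ih =>
    intro hy k hk
    have ih' := ih (fun j hj => hy j (Finset.mem_insert_of_mem hj))
    rw [Finset.card_insert_of_notMem hi] at hk
    rcases k with _ | k
    · rw [pr_coeff_zero]; exact one_pos
    · rw [pr_insert y hi, lin_mul_coeff_succ]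
      have h1 : 0 < y i := hy i (Finset.mem_insert_self _ _)
      have h2 := ih' k (by omega)
      have h3 : 0 ≤ (pr y s).coeff (k + 1) := by
        by_cases h : k + 1 ≤ s.card
        · exact (ih' _ h).le
        · rw [pr_coeff_gt y s _ (by omega)]
      positivity

omit [DecidableEq ι] in
theorem pr_eval_pos (s : Finset ι) (hy : ∀ i ∈ s, 0 < y i) (x : ℝ) (hx : 0 ≤ x) :
    0 < (pr y s).eval x := by
  unfold pr
  rw [eval_prod]
  refine Finset.prod_pos fun i hi => ?_
  have := hy i hi
  simp only [eval_add, eval_one, eval_mul, eval_C, eval_X]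
  positivity

end

/-- `A_N` of a product of `m` factors is a product of `m + 1` factors if `N > m`. -/
theorem opA_prod (m : ℕ) (y : Fin m → ℝ) (hy : ∀ i, 0 < y i) (N : ℝ) (hN : (m : ℝ) < N) :
    ∃ y' : Fin (m + 1) → ℝ, (∀ i, 0 < y' i) ∧ opA N (pr y Finset.univ) = pr y' Finset.univ := by
  have hq : 0 < N - m := by linarith
  have hformula := opA_pr y N Finset.univ
  rw [Finset.card_univ, Fintype.card_fin] at hformula
  refine exists_prod (m + 1) _ ?_ ?_ ?_
  · apply natDegree_eq_of_le_of_coeff_ne_zero
    · rw [natDegree_le_iff_coeff_eq_zero]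
      intro k hk
      obtain ⟨k, rfl⟩ : ∃ l, k = l + 1 := ⟨k - 1, by omega⟩
      rw [opA_coeff_succ, pr_coeff_gt _ _ _ (by simp; omega), pr_coeff_gt _ _ _ (by simp; omega)]
      ring
    · rw [opA_coeff_succ, pr_coeff_gt _ _ (m + 1) (by simp)]
      have := pr_coeff_pos y Finset.univ (fun i _ => hy i) m (by simp)
      rw [mul_zero, zero_add]
      positivity
  · rw [opA_coeff_zero, pr_coeff_zero]
  · intro z hz
    by_cases him : z.im = 0
    · refine ⟨him, ?_⟩
      by_contra hre
      push Not at hre
      have hzeq : z = ((z.re : ℝ) : ℂ) := Complex.ext (by simp) (by simp [him])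
      have h1 : (opA N (pr y Finset.univ)).eval z.re = 0 := by
        have : (algebraMap ℝ ℂ) ((opA N (pr y Finset.univ)).eval z.re) = 0 := by
          rw [← hz]
          conv_rhs => rw [hzeq]
          rw [aeval_def, ← Complex.coe_algebraMap, eval₂_at_apply]
        exact (map_eq_zero_iff _ (algebraMap ℝ ℂ).injective).mp this
      rw [hformula] at h1
      simp only [eval_add, eval_mul, eval_C, eval_X, eval_finsetSum] at h1
      have h2 := pr_eval_pos y Finset.univ (fun i _ => hy i) z.re hre
      have h3 : 0 ≤ ∑ i : Fin m, (1 + y i) * (z.re * (pr y (Finset.univ.erase i)).eval z.re) := by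
        refine Finset.sum_nonneg fun i _ => ?_
        have := hy i
        have := pr_eval_pos y (Finset.univ.erase i) (fun i _ => hy i) z.re hre
        positivity
      have h4 : 0 ≤ (N - m) * (z.re * (pr y Finset.univ).eval z.re) := by positivity
      linarith
    · exfalso
      have hne : ∀ i, (1 + (y i : ℂ) * z) ≠ 0 := by
        intro i h
        have := congrArg Complex.im h
        simp only [Complex.add_im, Complex.one_im, Complex.mul_im, Complex.ofReal_re,
          Complex.ofReal_im, zero_mul, add_zero, zero_add, Complex.zero_im] at this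
        have h' := hy i
        rcases mul_eq_zero.mp this with h1 | h1
        · exact h'.ne' h1
        · exact him h1
      have hF : ∀ s : Finset (Fin m), aeval z (pr y s) = ∏ i ∈ s, (1 + (y i : ℂ) * z) := by
        intro s
        unfold pr
        rw [map_prod]
        refine Finset.prod_congr rfl fun i _ => ?_
        simp
      have hFne : aeval z (pr y Finset.univ) ≠ 0 := by
        rw [hF]; exact Finset.prod_ne_zero_iff.mpr fun i _ => hne i
      have hFe : ∀ i, aeval z (pr y (Finset.univ.erase i))
          = aeval z (pr y Finset.univ) / (1 + (y i : ℂ) * z) := by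
        intro i
        rw [eq_div_iff (hne i), hF, hF, mul_comm]
        exact Finset.mul_prod_erase Finset.univ (fun i => 1 + (y i : ℂ) * z) (Finset.mem_univ i)
      rw [hformula] at hz
      have hz' : aeval z (pr y Finset.univ) * (1 + ((N - m : ℝ) : ℂ) * z
          + ∑ i : Fin m, ((1 + y i : ℝ) : ℂ) * (z / (1 + (y i : ℂ) * z))) = 0 := by
        rw [← hz]
        simp only [map_add, map_mul, map_sum, aeval_C, aeval_X, hFe]
        rw [mul_add, mul_add, Finset.mul_sum, mul_one]
        congr 1
        · congr 1
          simp only [Complex.coe_algebraMap]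
          ring
        · refine Finset.sum_congr rfl fun i _ => ?_
          simp only [Complex.coe_algebraMap]
          push_cast
          ring
      have hz2 := (mul_eq_zero.mp hz').resolve_left hFne
      have him2 := congrArg Complex.im hz2
      have hterm : ∀ i, (((1 + y i : ℝ) : ℂ) * (z / (1 + (y i : ℂ) * z))).im
          = z.im * ((1 + y i) / Complex.normSq (1 + (y i : ℂ) * z)) := by
        intro i
        rw [Complex.im_ofReal_mul, Complex.div_im]
        simp only [Complex.add_re, Complex.one_re, Complex.mul_re, Complex.ofReal_re,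
          Complex.ofReal_im, zero_mul, sub_zero, Complex.add_im, Complex.one_im, Complex.mul_im,
          add_zero, zero_add]
        ring
      have h5 : z.im * ((N - m) + ∑ i : Fin m, (1 + y i) / Complex.normSq (1 + (y i : ℂ) * z)) = 0 := by
        rw [Complex.add_im, Complex.add_im, Complex.one_im,
          Complex.im_ofReal_mul, Complex.im_sum, Finset.sum_congr rfl (fun i _ => hterm i),
          Complex.zero_im] at him2
        rw [mul_add, Finset.mul_sum, ← him2]
        ring
      have h6 : 0 < (N - m) + ∑ i : Fin m, (1 + y i) / Complex.normSq (1 + (y i : ℂ) * z) := by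
        have : 0 ≤ ∑ i : Fin m, (1 + y i) / Complex.normSq (1 + (y i : ℂ) * z) := by
          refine Finset.sum_nonneg fun i _ => ?_
          have := hy i
          have := Complex.normSq_nonneg (1 + (y i : ℂ) * z)
          positivity
        linarith
      rcases mul_eq_zero.mp h5 with h | h
      · exact him h
      · exact h6.ne' h

end Pool.Agent.H73.TP
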