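import Pool.Agent.H73.TP.Wedge

/-!
# Solid minors of order three are nonnegative for every real-rooted start
-/

set_option autoImplicit false

open Polynomial

namespace Pool.Agent.H73.TP

section
variable {ι : Type*} [DecidableEq ι]

omit [DecidableEq ι] in
/-- Symmetrisation over pairs. -/
theorem pair_sum_nonneg (s : Finset ι) (P : ι → ι → ℝ)
    (h : ∀ i ∈ s, ∀ k ∈ s, 0 ≤ P i k + P k i) : 0 ≤ ∑ i ∈ s, ∑ k ∈ s, P i k := by
  have h1 : ∑ i ∈ s, ∑ k ∈ s, P i k = ∑ i ∈ s, ∑ k ∈ s, P k i := Finset.sum_comm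
  have h2 : 0 ≤ ∑ i ∈ s, ∑ k ∈ s, (P i k + P k i) :=
    Finset.sum_nonneg fun i hi => Finset.sum_nonneg fun k hk => h i hi k hk
  simp only [Finset.sum_add_distrib] at h2
  linarith

omit [DecidableEq ι] in
/-- Symmetrisation over triples. -/
theorem triple_sum_nonneg (s : Finset ι) (P : ι → ι → ι → ℝ)
    (h : ∀ i ∈ s, ∀ k ∈ s, ∀ l ∈ s, 0 ≤ P i k l + P k l i + P l i k) :
    0 ≤ ∑ i ∈ s, ∑ k ∈ s, ∑ l ∈ s, P i k l := by
  have e1 : ∑ i ∈ s, ∑ k ∈ s, ∑ l ∈ s, P k l i = ∑ i ∈ s, ∑ k ∈ s, ∑ l ∈ s, P i k l := by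
    rw [Finset.sum_comm]
    refine Finset.sum_congr rfl fun k _ => ?_
    rw [Finset.sum_comm]
  have e2 : ∑ i ∈ s, ∑ k ∈ s, ∑ l ∈ s, P l i k = ∑ i ∈ s, ∑ k ∈ s, ∑ l ∈ s, P i k l := by
    have : ∀ i, ∑ k ∈ s, ∑ l ∈ s, P l i k = ∑ l ∈ s, ∑ k ∈ s, P l i k := fun i => Finset.sum_comm
    simp only [this]
    rw [Finset.sum_comm]
  have h2 : 0 ≤ ∑ i ∈ s, ∑ k ∈ s, ∑ l ∈ s, (P i k l + P k l i + P l i k) :=
    Finset.sum_nonneg fun i hi => Finset.sum_nonneg fun k hk => Finset.sum_nonneg fun l hl =>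
      h i hi k hk l hl
  simp only [Finset.sum_add_distrib] at h2
  linarith

theorem sum_erase_ite (s : Finset ι) (k : ι) (φ : ι → ℝ) :
    ∑ l ∈ s.erase k, φ l = ∑ l ∈ s, if l = k then 0 else φ l := by
  have h : ∑ l ∈ s.erase k, φ l = ∑ l ∈ s.erase k, if l = k then 0 else φ l := by
    refine Finset.sum_congr rfl fun l hl => ?_
    rw [if_neg (Finset.ne_of_mem_erase hl)]
  rw [h]
  exact Finset.sum_erase s (by simp)

variable (y : ι → ℝ) (s : Finset ι)

/-- Expansion of the second step. -/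
theorem step2 (q r : ℝ) :
    opA (s.card + q + r) (opA (s.card + q) (pr y s))
      = pr y s + 3 * (C q * (X * pr y s) + ∑ i ∈ s, C (1 + y i) * (X * pr y (s.erase i)))
        + (C r * (X * pr y s) + C (q * (q + r - 1)) * (X ^ 2 * pr y s)
          + C (2 * q + r) * ∑ i ∈ s, C (1 + y i) * (X ^ 2 * pr y (s.erase i))
          + ∑ i ∈ s, ∑ k ∈ s.erase i,
              C ((1 + y i) * (1 + y k)) * (X ^ 2 * pr y ((s.erase i).erase k))) := by
  have hM : ∀ g : ℝ[X], opA (s.card + q + r) (X * g) = X * opA (s.card + (q + r - 1)) g + X * g := by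
    intro g
    rw [opA_X_mul]
    congr 3; ring
  have h1 : opA (s.card + q) (pr y s) = pr y s + C q * (X * pr y s)
      + ∑ i ∈ s, C (1 + y i) * (X * pr y (s.erase i)) := by
    rw [opA_pr]; simp
  have h2 : opA (s.card + q + r) (pr y s) = pr y s + C (q + r) * (X * pr y s)
      + ∑ i ∈ s, C (1 + y i) * (X * pr y (s.erase i)) := by
    rw [opA_pr]
    congr 3; congr 1; ring
  have h3 : opA (s.card + (q + r - 1)) (pr y s) = pr y s + C (q + r - 1) * (X * pr y s)
      + ∑ i ∈ s, C (1 + y i) * (X * pr y (s.erase i)) := by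
    rw [opA_pr]
    congr 3; congr 1; ring
  have h4 : ∀ i ∈ s, opA (s.card + (q + r - 1)) (pr y (s.erase i))
      = pr y (s.erase i) + C (q + r) * (X * pr y (s.erase i))
        + ∑ k ∈ s.erase i, C (1 + y k) * (X * pr y ((s.erase i).erase k)) := by
    intro i hi
    rw [opA_pr]
    have hc : ((s.erase i).card : ℝ) = s.card - 1 := by
      rw [Finset.card_erase_of_mem hi, Nat.cast_sub (Finset.card_pos.mpr ⟨i, hi⟩)]; simp
    rw [hc]
    congr 3; congr 1; ring
  have h5 : ∑ i ∈ s, opA (s.card + q + r) (C (1 + y i) * (X * pr y (s.erase i)))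
      = 2 * (∑ i ∈ s, C (1 + y i) * (X * pr y (s.erase i)))
        + C (q + r) * (∑ i ∈ s, C (1 + y i) * (X ^ 2 * pr y (s.erase i)))
        + ∑ i ∈ s, ∑ k ∈ s.erase i,
              C ((1 + y i) * (1 + y k)) * (X ^ 2 * pr y ((s.erase i).erase k)) := by
    rw [Finset.mul_sum, Finset.mul_sum, ← Finset.sum_add_distrib, ← Finset.sum_add_distrib]
    refine Finset.sum_congr rfl fun i hi => ?_
    rw [opA_C_mul, hM, h4 i hi]
    have : ∑ k ∈ s.erase i, C ((1 + y i) * (1 + y k)) * (X ^ 2 * pr y ((s.erase i).erase k))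
        = C (1 + y i) * X * ∑ k ∈ s.erase i, C (1 + y k) * (X * pr y ((s.erase i).erase k)) := by
      rw [Finset.mul_sum]
      refine Finset.sum_congr rfl fun k _ => ?_
      rw [C_mul]; ring
    rw [this]; ring
  have h6 : ∑ i ∈ s, C (1 + y i) * (X ^ 2 * pr y (s.erase i))
      = X * ∑ i ∈ s, C (1 + y i) * (X * pr y (s.erase i)) := by
    rw [Finset.mul_sum]
    refine Finset.sum_congr rfl fun i _ => ?_
    ring
  rw [h1, opA_add, opA_add, opA_C_mul, opA_sum, h5, hM, h2, h3, h6]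
  have e1 : (C (q * (q + r - 1)) : ℝ[X]) = C q * (C q + C r - 1) := by
    rw [C_mul, C_sub, C_add, C_1]
  have e2 : (C (q + r - 1) : ℝ[X]) = C q + C r - 1 := by
    rw [C_sub, C_add, C_1]
  have e3 : (C (q + r) : ℝ[X]) = C q + C r := by rw [C_add]
  have e4 : (C (2 * q + r) : ℝ[X]) = 2 * C q + C r := by
    rw [C_add, C_mul]; rfl
  rw [e1, e2, e3, e4]
  ring

/-- The trilinear expansion. -/
theorem expand (j : ℕ) (q r : ℝ) (f : ℝ[X]) (fi : ι → ℝ[X]) (fik : ι → ι → ℝ[X]) (w : ι → ℝ) :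
    w3 j f (f + (C q * (X * f) + ∑ i ∈ s, C (w i) * (X * fi i)))
      (f + 3 * (C q * (X * f) + ∑ i ∈ s, C (w i) * (X * fi i))
        + (C r * (X * f) + C (q * (q + r - 1)) * (X ^ 2 * f)
          + C (2 * q + r) * ∑ i ∈ s, C (w i) * (X ^ 2 * fi i)
          + ∑ i ∈ s, ∑ k ∈ s.erase i, C (w i * w k) * (X ^ 2 * fik i k)))
    = q ^ 2 * (q + r - 1) * w3 j f (X * f) (X ^ 2 * f)
      + q * (2 * q + r) * (∑ k ∈ s, w k * w3 j f (X * f) (X ^ 2 * fi k))
      + r * (∑ i ∈ s, w i * w3 j f (X * fi i) (X * f))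
      + q * (q + r - 1) * (∑ i ∈ s, w i * w3 j f (X * fi i) (X ^ 2 * f))
      + (2 * q + r) * (∑ i ∈ s, w i * w i * w3 j f (X * fi i) (X ^ 2 * fi i))
      + (∑ i ∈ s, ∑ k ∈ s, if k = i then 0 else w i * w k *
          (q * w3 j f (X * f) (X ^ 2 * fik i k) + (2 * q + r) * w3 j f (X * fi i) (X ^ 2 * fi k)))
      + (∑ i ∈ s, ∑ k ∈ s, ∑ l ∈ s, if l = k then 0 else w i * (w k * w l) *
          w3 j f (X * fi i) (X ^ 2 * fik k l)) := by
  set G1 : ℝ[X] := C q * (X * f) + ∑ i ∈ s, C (w i) * (X * fi i) with hG1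
  set H1 : ℝ[X] := C r * (X * f) + C (q * (q + r - 1)) * (X ^ 2 * f)
          + C (2 * q + r) * ∑ i ∈ s, C (w i) * (X ^ 2 * fi i)
          + ∑ i ∈ s, ∑ k ∈ s.erase i, C (w i * w k) * (X ^ 2 * fik i k) with hH1
  have h0 : w3 j f (f + G1) (f + 3 * G1 + H1) = w3 j f G1 H1 := by
    have : (3 * G1 : ℝ[X]) = C 3 * G1 := by
      rw [show (C (3 : ℝ) : ℝ[X]) = 3 from rfl]
    rw [this]
    simp only [w3, coeff_add, coeff_C_mul]; ring
  rw [h0, hG1, w3_add_mid, w3_C_mid, w3_sum_mid]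
  have hH : ∀ g : ℝ[X], w3 j f g H1 = r * w3 j f g (X * f) + q * (q + r - 1) * w3 j f g (X ^ 2 * f)
      + (2 * q + r) * (∑ k ∈ s, w k * w3 j f g (X ^ 2 * fi k))
      + ∑ k ∈ s, ∑ l ∈ s, if l = k then 0 else w k * w l * w3 j f g (X ^ 2 * fik k l) := by
    intro g
    rw [hH1, w3_add_right, w3_add_right, w3_add_right, w3_C_right, w3_C_right, w3_C_right,
      w3_sum_right, w3_sum_right]
    congr 1
    · congr 1
      congr 1
      refine Finset.sum_congr rfl fun k _ => ?_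
      rw [w3_C_right]
    · refine Finset.sum_congr rfl fun k _ => ?_
      rw [w3_sum_right, sum_erase_ite]
      refine Finset.sum_congr rfl fun l _ => ?_
      rw [w3_C_right]
  have hmid : ∀ i ∈ s, w3 j f (C (w i) * (X * fi i)) H1
      = r * (w i * w3 j f (X * fi i) (X * f))
        + q * (q + r - 1) * (w i * w3 j f (X * fi i) (X ^ 2 * f))
        + (2 * q + r) * (∑ k ∈ s, w i * w k * w3 j f (X * fi i) (X ^ 2 * fi k))
        + ∑ k ∈ s, ∑ l ∈ s, if l = k then 0 else w i * (w k * w l) *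
          w3 j f (X * fi i) (X ^ 2 * fik k l) := by
    intro i _
    rw [w3_C_mid, hH]
    have e1 : ∑ k ∈ s, w i * w k * w3 j f (X * fi i) (X ^ 2 * fi k)
        = w i * ∑ k ∈ s, w k * w3 j f (X * fi i) (X ^ 2 * fi k) := by
      rw [Finset.mul_sum]; exact Finset.sum_congr rfl fun k _ => by ring
    have e2 : (∑ k ∈ s, ∑ l ∈ s, if l = k then 0 else w i * (w k * w l) *
          w3 j f (X * fi i) (X ^ 2 * fik k l))
        = w i * ∑ k ∈ s, ∑ l ∈ s, if l = k then 0 else w k * w l *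
          w3 j f (X * fi i) (X ^ 2 * fik k l) := by
      rw [Finset.mul_sum]
      refine Finset.sum_congr rfl fun k _ => ?_
      rw [Finset.mul_sum]
      refine Finset.sum_congr rfl fun l _ => ?_
      split_ifs <;> ring
    rw [e1, e2]; ring
  rw [Finset.sum_congr rfl hmid, hH, w3_self]
  simp only [Finset.sum_add_distrib, ← Finset.mul_sum]
  -- split the diagonal
  have hdiag : ∑ i ∈ s, ∑ k ∈ s, w i * w k * w3 j f (X * fi i) (X ^ 2 * fi k)
      = (∑ i ∈ s, w i * w i * w3 j f (X * fi i) (X ^ 2 * fi i))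
        + ∑ i ∈ s, ∑ k ∈ s, if k = i then 0 else w i * w k * w3 j f (X * fi i) (X ^ 2 * fi k) := by
    rw [← Finset.sum_add_distrib]
    refine Finset.sum_congr rfl fun i hi => ?_
    rw [← Finset.add_sum_erase s _ hi, sum_erase_ite]
  have hP : (∑ i ∈ s, ∑ k ∈ s, if k = i then 0 else w i * w k *
          (q * w3 j f (X * f) (X ^ 2 * fik i k) + (2 * q + r) * w3 j f (X * fi i) (X ^ 2 * fi k)))
      = q * (∑ i ∈ s, ∑ k ∈ s, if k = i then 0 else w i * w k * w3 j f (X * f) (X ^ 2 * fik i k))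
        + (2 * q + r) * (∑ i ∈ s, ∑ k ∈ s, if k = i then 0 else w i * w k *
          w3 j f (X * fi i) (X ^ 2 * fi k)) := by
    rw [Finset.mul_sum, Finset.mul_sum, ← Finset.sum_add_distrib]
    refine Finset.sum_congr rfl fun i _ => ?_
    rw [Finset.mul_sum, Finset.mul_sum, ← Finset.sum_add_distrib]
    refine Finset.sum_congr rfl fun k _ => ?_
    split_ifs <;> ring
  rw [hdiag, hP]
  ring

theorem tri_term (j : ℕ) (hy : ∀ i ∈ s, 0 ≤ y i) {i k l : ι} (hi : i ∈ s) (hk : k ∈ s) (hl : l ∈ s)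
    (hik : i ≠ k) (hkl : k ≠ l) (hil : i ≠ l) :
    0 ≤ w3 j (pr y s) (X * pr y (s.erase i)) (X ^ 2 * pr y ((s.erase k).erase l))
      + w3 j (pr y s) (X * pr y (s.erase k)) (X ^ 2 * pr y ((s.erase l).erase i))
      + w3 j (pr y s) (X * pr y (s.erase l)) (X ^ 2 * pr y ((s.erase i).erase k)) := by
  set G := pr y (((s.erase i).erase k).erase l) with hG
  have mk : k ∈ s.erase i := Finset.mem_erase.mpr ⟨hik.symm, hk⟩
  have ml : l ∈ s.erase i := Finset.mem_erase.mpr ⟨hil.symm, hl⟩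
  have mi' : i ∈ s.erase k := Finset.mem_erase.mpr ⟨hik, hi⟩
  have mi'' : i ∈ s.erase l := Finset.mem_erase.mpr ⟨hil, hi⟩
  have mkl : l ∈ (s.erase i).erase k := Finset.mem_erase.mpr ⟨hkl.symm, ml⟩
  have mlk : k ∈ (s.erase i).erase l := Finset.mem_erase.mpr ⟨hkl, mk⟩
  have g_ik : pr y ((s.erase i).erase k) = (1 + C (y l) * X) * G := by
    rw [pr_erase y mkl]
  have g_il : pr y ((s.erase l).erase i) = (1 + C (y k) * X) * G := by
    rw [Finset.erase_right_comm, pr_erase y mlk, Finset.erase_right_comm]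
  have g_kl : pr y ((s.erase k).erase l) = (1 + C (y i) * X) * G := by
    have mm : i ∈ (s.erase k).erase l := Finset.mem_erase.mpr ⟨hil, mi'⟩
    rw [pr_erase y mm, Finset.erase_right_comm (s := s.erase k), Finset.erase_right_comm (s := s)]
  have g_i : pr y (s.erase i) = (1 + C (y k) * X) * ((1 + C (y l) * X) * G) := by
    rw [pr_erase y mk, g_ik]
  have g_k : pr y (s.erase k) = (1 + C (y i) * X) * ((1 + C (y l) * X) * G) := by
    rw [pr_erase y mi', Finset.erase_right_comm, g_ik]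
  have g_l : pr y (s.erase l) = (1 + C (y i) * X) * ((1 + C (y k) * X) * G) := by
    rw [pr_erase y mi'', g_il]
  have g_s : pr y s = (1 + C (y i) * X) * ((1 + C (y k) * X) * ((1 + C (y l) * X) * G)) := by
    rw [pr_erase y hi, g_i]
  rw [g_kl, g_il, g_ik, g_i, g_k, g_l, g_s, L9]
  have hG0 : ∀ a b c, a ≤ b → b ≤ c → 0 ≤ tz j G a b c := by
    apply tz_nonneg y j
    intro e he
    exact hy e (Finset.mem_of_mem_erase (Finset.mem_of_mem_erase (Finset.mem_of_mem_erase he)))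
  have t1 := hG0 0 1 2 (by norm_num) (by norm_num)
  have t2 := hG0 0 1 3 (by norm_num) (by norm_num)
  have t3 := hG0 0 2 3 (by norm_num) (by norm_num)
  have t4 := hG0 1 2 3 (by norm_num) (by norm_num)
  have y1 := hy i hi
  have y2 := hy k hk
  have y3 := hy l hl
  positivity

theorem pair_term (j : ℕ) {q r : ℝ} (hq : 0 ≤ q) (hr : 0 ≤ r) (hy : ∀ i ∈ s, 0 ≤ y i) {i k : ι}
    (hi : i ∈ s) (hk : k ∈ s) (hik : i ≠ k) :
    0 ≤ (q * w3 j (pr y s) (X * pr y s) (X ^ 2 * pr y ((s.erase i).erase k))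
        + (2 * q + r) * w3 j (pr y s) (X * pr y (s.erase i)) (X ^ 2 * pr y (s.erase k)))
      + (q * w3 j (pr y s) (X * pr y s) (X ^ 2 * pr y ((s.erase k).erase i))
        + (2 * q + r) * w3 j (pr y s) (X * pr y (s.erase k)) (X ^ 2 * pr y (s.erase i))) := by
  set G := pr y ((s.erase i).erase k) with hG
  have mk : k ∈ s.erase i := Finset.mem_erase.mpr ⟨hik.symm, hk⟩
  have mi' : i ∈ s.erase k := Finset.mem_erase.mpr ⟨hik, hi⟩
  have g_ki : pr y ((s.erase k).erase i) = G := by rw [Finset.erase_right_comm]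
  have g_i : pr y (s.erase i) = (1 + C (y k) * X) * G := by rw [pr_erase y mk]
  have g_k : pr y (s.erase k) = (1 + C (y i) * X) * G := by rw [pr_erase y mi', g_ki]
  have g_s : pr y s = (1 + C (y i) * X) * ((1 + C (y k) * X) * G) := by rw [pr_erase y hi, g_i]
  have g_s' : pr y s = (1 + C (y k) * X) * ((1 + C (y i) * X) * G) := by rw [pr_erase y hk, g_k]
  have a1 : w3 j (pr y s) (X * pr y s) (X ^ 2 * G)
      = tz j G 0 1 2 - y i * y k * tz j G 0 2 3 - (y i + y k) * (y i * y k) * tz j G 1 2 3 := by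
    rw [g_s, L5]
  have a2 : w3 j (pr y s) (X * pr y (s.erase i)) (X ^ 2 * pr y (s.erase k))
      = tz j G 0 1 2 + y i * tz j G 0 1 3 + y i * y k * tz j G 0 2 3
        + y i * y k * y k * tz j G 1 2 3 := by
    rw [g_s, g_i, g_k, L6]
  have a3 : w3 j (pr y s) (X * pr y (s.erase k)) (X ^ 2 * pr y (s.erase i))
      = tz j G 0 1 2 + y k * tz j G 0 1 3 + y k * y i * tz j G 0 2 3
        + y k * y i * y i * tz j G 1 2 3 := by
    rw [g_s', g_i, g_k, L6]
  have hG0 : ∀ a b c, a ≤ b → b ≤ c → 0 ≤ tz j G a b c := by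
    apply tz_nonneg y j
    intro e he
    exact hy e (Finset.mem_of_mem_erase (Finset.mem_of_mem_erase he))
  have t1 := hG0 0 1 2 (by norm_num) (by norm_num)
  have t2 := hG0 0 1 3 (by norm_num) (by norm_num)
  have t3 := hG0 0 2 3 (by norm_num) (by norm_num)
  have t4 := hG0 1 2 3 (by norm_num) (by norm_num)
  have y1 := hy i hi
  have y2 := hy k hk
  rw [g_ki, a1, a2, a3]
  have : (q * (tz j G 0 1 2 - y i * y k * tz j G 0 2 3 - (y i + y k) * (y i * y k) * tz j G 1 2 3)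
        + (2 * q + r) * (tz j G 0 1 2 + y i * tz j G 0 1 3 + y i * y k * tz j G 0 2 3
        + y i * y k * y k * tz j G 1 2 3))
      + (q * (tz j G 0 1 2 - y i * y k * tz j G 0 2 3 - (y i + y k) * (y i * y k) * tz j G 1 2 3)
        + (2 * q + r) * (tz j G 0 1 2 + y k * tz j G 0 1 3 + y k * y i * tz j G 0 2 3
        + y k * y i * y i * tz j G 1 2 3))
      = (6 * q + 2 * r) * tz j G 0 1 2 + (2 * q + r) * (y i + y k) * tz j G 0 1 3
        + (2 * q + 2 * r) * (y i * y k) * tz j G 0 2 3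
        + r * (y i + y k) * (y i * y k) * tz j G 1 2 3 := by ring
  rw [this]
  positivity

/-- **Solid minors.** `f ∧ A_N f ∧ A_(N+r) A_N f ≥ 0` for every product `f` of `m` factors
`1 + y_i t`, `N = m + q`. -/
theorem solid_nonneg (j : ℕ) {q r : ℝ} (hq : 0 ≤ q) (hr : 0 ≤ r) (hqr : 1 ≤ q + r)
    (hy : ∀ i ∈ s, 0 ≤ y i) :
    0 ≤ w3 j (pr y s) (opA (s.card + q) (pr y s))
      (opA (s.card + q + r) (opA (s.card + q) (pr y s))) := by
  have h1 : opA (s.card + q) (pr y s) = pr y s + (C q * (X * pr y s)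
      + ∑ i ∈ s, C (1 + y i) * (X * pr y (s.erase i))) := by
    rw [opA_pr]
    rw [add_sub_cancel_left]; ring
  have hex := expand s j q r (pr y s) (fun i => pr y (s.erase i))
    (fun i k => pr y ((s.erase i).erase k)) (fun i => 1 + y i)
  rw [step2]
  conv_rhs => rw [h1]
  rw [hex]
  have hq1 : 0 ≤ q + r - 1 := by linarith
  have hw : ∀ i ∈ s, 0 ≤ 1 + y i := fun i hi => by linarith [hy i hi]
  have hT : ∀ i, ∀ a b c, a ≤ b → b ≤ c → 0 ≤ tz j (pr y (s.erase i)) a b c := by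
    intro i
    apply tz_nonneg y j
    intro e he
    exact hy e (Finset.mem_of_mem_erase he)
  have A0 : 0 ≤ w3 j (pr y s) (X * pr y s) (X ^ 2 * pr y s) := by
    have := tz_nonneg y j s hy 0 1 2 (by norm_num) (by norm_num)
    simpa [tz] using this
  have A1 : 0 ≤ ∑ k ∈ s, (1 + y k) * w3 j (pr y s) (X * pr y s) (X ^ 2 * pr y (s.erase k)) := by
    refine Finset.sum_nonneg fun k hk => mul_nonneg (hw k hk) ?_
    rw [pr_erase y hk, L1]; exact hT k 0 1 2 (by norm_num) (by norm_num)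
  have A2 : 0 ≤ ∑ k ∈ s, (1 + y k) * w3 j (pr y s) (X * pr y (s.erase k)) (X * pr y s) := by
    refine Finset.sum_nonneg fun k hk => mul_nonneg (hw k hk) ?_
    rw [pr_erase y hk, L2]; exact mul_nonneg (hy k hk) (hT k 0 1 2 (by norm_num) (by norm_num))
  have A3 : 0 ≤ ∑ k ∈ s, (1 + y k) * w3 j (pr y s) (X * pr y (s.erase k)) (X ^ 2 * pr y s) := by
    refine Finset.sum_nonneg fun k hk => mul_nonneg (hw k hk) ?_
    rw [pr_erase y hk, L3]
    exact add_nonneg (hT k 0 1 2 (by norm_num) (by norm_num))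
      (mul_nonneg (hy k hk) (hT k 0 1 3 (by norm_num) (by norm_num)))
  have A4 : 0 ≤ ∑ k ∈ s, (1 + y k) * (1 + y k) *
      w3 j (pr y s) (X * pr y (s.erase k)) (X ^ 2 * pr y (s.erase k)) := by
    refine Finset.sum_nonneg fun k hk => mul_nonneg (mul_nonneg (hw k hk) (hw k hk)) ?_
    rw [pr_erase y hk, L4]; exact hT k 0 1 2 (by norm_num) (by norm_num)
  have A5 : 0 ≤ ∑ i ∈ s, ∑ k ∈ s, if k = i then 0 else (1 + y i) * (1 + y k) *
          (q * w3 j (pr y s) (X * pr y s) (X ^ 2 * pr y ((s.erase i).erase k))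
            + (2 * q + r) * w3 j (pr y s) (X * pr y (s.erase i)) (X ^ 2 * pr y (s.erase k))) := by
    apply pair_sum_nonneg
    intro i hi k hk
    by_cases h : i = k
    · simp [h]
    · rw [if_neg (Ne.symm h), if_neg h]
      have := pair_term y s j hq hr hy hi hk h
      have w1 := hw i hi
      have w2 := hw k hk
      have := mul_nonneg (mul_nonneg w1 w2) this
      linarith
  have A6 : 0 ≤ ∑ i ∈ s, ∑ k ∈ s, ∑ l ∈ s, if l = k then 0 else (1 + y i) * ((1 + y k) * (1 + y l)) *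
          w3 j (pr y s) (X * pr y (s.erase i)) (X ^ 2 * pr y ((s.erase k).erase l)) := by
    have B : 0 ≤ ∑ i ∈ s, ∑ k ∈ s, ∑ l ∈ s, if i ≠ k ∧ k ≠ l ∧ i ≠ l then
        (1 + y i) * ((1 + y k) * (1 + y l)) *
          w3 j (pr y s) (X * pr y (s.erase i)) (X ^ 2 * pr y ((s.erase k).erase l)) else 0 := by
      apply triple_sum_nonneg
      intro i hi k hk l hl
      by_cases h : i ≠ k ∧ k ≠ l ∧ i ≠ l
      · obtain ⟨h1, h2, h3⟩ := h
        rw [if_pos ⟨h1, h2, h3⟩, if_pos ⟨h2, h3.symm, h1.symm⟩, if_pos ⟨h3.symm, h1, h2.symm⟩]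
        have := tri_term y s j hy hi hk hl h1 h2 h3
        have := mul_nonneg (mul_nonneg (mul_nonneg (hw i hi) (hw k hk)) (hw l hl)) this
        linarith
      · rw [if_neg h, if_neg (fun h' => h ⟨h'.2.2.symm, h'.1, h'.2.1.symm⟩),
          if_neg (fun h' => h ⟨h'.2.1, h'.2.2.symm, h'.1.symm⟩)]
        simp
    refine le_trans B ?_
    refine Finset.sum_le_sum fun i hi => Finset.sum_le_sum fun k hk => Finset.sum_le_sum fun l hl => ?_
    by_cases hlk : l = k
    · rw [if_pos hlk, if_neg (fun h' => h'.2.1 hlk.symm)]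
    · rw [if_neg hlk]
      split_ifs with h
      · exact le_rfl
      · -- `i = k` or `i = l`
        have hpos : 0 ≤ (1 + y i) * ((1 + y k) * (1 + y l)) :=
          mul_nonneg (hw i hi) (mul_nonneg (hw k hk) (hw l hl))
        refine mul_nonneg hpos ?_
        have hcase : i = k ∨ i = l := by
          by_contra hcon
          push Not at hcon
          exact h ⟨hcon.1, fun e => hlk e.symm, hcon.2⟩
        rcases hcase with rfl | rfl
        · -- `i = k`
          have ml : l ∈ s.erase i := Finset.mem_erase.mpr ⟨hlk, hl⟩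
          have g_i : pr y (s.erase i) = (1 + C (y l) * X) * pr y ((s.erase i).erase l) := by
            rw [pr_erase y ml]
          have g_s : pr y s = (1 + C (y i) * X) * ((1 + C (y l) * X) * pr y ((s.erase i).erase l)) := by
            rw [pr_erase y hi, g_i]
          rw [g_s, g_i, L7]
          apply tz_nonneg y j _ _ 0 1 2 (by norm_num) (by norm_num)
          intro e he
          exact hy e (Finset.mem_of_mem_erase (Finset.mem_of_mem_erase he))
        · -- `i = l`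
          have mk : k ∈ s.erase i := Finset.mem_erase.mpr ⟨fun e => hlk e.symm, hk⟩
          have g_i : pr y (s.erase i) = (1 + C (y k) * X) * pr y ((s.erase i).erase k) := by
            rw [pr_erase y mk]
          have g_s : pr y s = (1 + C (y i) * X) * ((1 + C (y k) * X) * pr y ((s.erase i).erase k)) := by
            rw [pr_erase y hi, g_i]
          rw [Finset.erase_right_comm, g_s, g_i, L7]
          apply tz_nonneg y j _ _ 0 1 2 (by norm_num) (by norm_num)
          intro e he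
          exact hy e (Finset.mem_of_mem_erase (Finset.mem_of_mem_erase he))
  have hq2 : 0 ≤ q ^ 2 * (q + r - 1) := by positivity
  have hq3 : 0 ≤ q * (2 * q + r) := by positivity
  have hq4 : 0 ≤ q * (q + r - 1) := by positivity
  have hq5 : 0 ≤ 2 * q + r := by positivity
  have := mul_nonneg hq2 A0
  have := mul_nonneg hq3 A1
  have := mul_nonneg hr A2
  have := mul_nonneg hq4 A3
  have := mul_nonneg hq5 A4
  positivity

end

end Pool.Agent.H73.TP
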