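import Pool.Agent.H73.TP.Pf

/-!
# Solid minors of order three: a manifestly nonnegative expansion
-/

set_option autoImplicit false

open Polynomial

namespace Pool.Agent.H73.TP

/-- Determinant of the coefficients `j, j+1, j+2` of three polynomials. -/
noncomputable def w3 (j : ℕ) (f g h : ℝ[X]) : ℝ :=
  f.coeff j * (g.coeff (j + 1) * h.coeff (j + 2) - g.coeff (j + 2) * h.coeff (j + 1))
    - f.coeff (j + 1) * (g.coeff j * h.coeff (j + 2) - g.coeff (j + 2) * h.coeff j)
    + f.coeff (j + 2) * (g.coeff j * h.coeff (j + 1) - g.coeff (j + 1) * h.coeff j)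

theorem w3_add_right (j : ℕ) (f g h h' : ℝ[X]) : w3 j f g (h + h') = w3 j f g h + w3 j f g h' := by
  simp only [w3, coeff_add]; ring

theorem w3_C_right (j : ℕ) (c : ℝ) (f g h : ℝ[X]) : w3 j f g (C c * h) = c * w3 j f g h := by
  simp only [w3, coeff_C_mul]; ring

theorem w3_add_mid (j : ℕ) (f g g' h : ℝ[X]) : w3 j f (g + g') h = w3 j f g h + w3 j f g' h := by
  simp only [w3, coeff_add]; ring

theorem w3_C_mid (j : ℕ) (c : ℝ) (f g h : ℝ[X]) : w3 j f (C c * g) h = c * w3 j f g h := by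
  simp only [w3, coeff_C_mul]; ring

theorem w3_zero_right (j : ℕ) (f g : ℝ[X]) : w3 j f g 0 = 0 := by simp [w3]

theorem w3_zero_mid (j : ℕ) (f g : ℝ[X]) : w3 j f 0 g = 0 := by simp [w3]

theorem w3_self (j : ℕ) (f g : ℝ[X]) : w3 j f g g = 0 := by simp only [w3]; ring

theorem w3_self' (j : ℕ) (f g : ℝ[X]) : w3 j f f g = 0 := by simp only [w3]; ring

theorem w3_sum_right {ι : Type*} (j : ℕ) (f g : ℝ[X]) (s : Finset ι) (h : ι → ℝ[X]) :
    w3 j f g (∑ i ∈ s, h i) = ∑ i ∈ s, w3 j f g (h i) := by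
  classical
  induction s using Finset.induction_on with
  | empty => simp [w3_zero_right]
  | insert i s hi ih => rw [Finset.sum_insert hi, Finset.sum_insert hi, w3_add_right, ih]

theorem w3_sum_mid {ι : Type*} (j : ℕ) (f h : ℝ[X]) (s : Finset ι) (g : ι → ℝ[X]) :
    w3 j f (∑ i ∈ s, g i) h = ∑ i ∈ s, w3 j f (g i) h := by
  classical
  induction s using Finset.induction_on with
  | empty => simp [w3_zero_mid]
  | insert i s hi ih => rw [Finset.sum_insert hi, Finset.sum_insert hi, w3_add_mid, ih]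

/-- Toeplitz minors. -/
noncomputable def tz (j : ℕ) (G : ℝ[X]) (a b c : ℕ) : ℝ := w3 j (X ^ a * G) (X ^ b * G) (X ^ c * G)

theorem tz_nonneg {ι : Type*} [DecidableEq ι] (y : ι → ℝ) (j : ℕ) (s : Finset ι) :
    (∀ i ∈ s, 0 ≤ y i) → ∀ a b c, a ≤ b → b ≤ c → 0 ≤ tz j (pr y s) a b c := by
  induction s using Finset.induction_on with
  | empty =>
    intro _ a b c hab hbc
    by_cases h1 : a = b
    · subst h1; unfold tz; rw [w3_self']
    by_cases h2 : b = c
    · subst h2; unfold tz; rw [w3_self]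
    simp only [tz, pr, Finset.prod_empty, mul_one, w3, coeff_X_pow]
    split_ifs <;> first | omega | norm_num
  | insert i s hi ih =>
    intro hy a b c hab hbc
    by_cases h1 : a = b
    · subst h1; unfold tz; rw [w3_self']
    by_cases h2 : b = c
    · subst h2; unfold tz; rw [w3_self]
    have ih' := ih (fun j hj => hy j (Finset.mem_insert_of_mem hj))
    have hyi : 0 ≤ y i := hy i (Finset.mem_insert_self _ _)
    set G := pr y s with hG
    have hX : ∀ e : ℕ, X ^ e * pr y (insert i s) = X ^ e * G + C (y i) * (X ^ (e + 1) * G) := by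
      intro e; rw [pr_insert y hi]; ring
    have hexp : tz j (pr y (insert i s)) a b c
        = tz j G a b c + y i * tz j G a b (c + 1) + y i * tz j G a (b + 1) c
          + y i * tz j G (a + 1) b c + y i ^ 2 * tz j G a (b + 1) (c + 1)
          + y i ^ 2 * tz j G (a + 1) b (c + 1) + y i ^ 2 * tz j G (a + 1) (b + 1) c
          + y i ^ 3 * tz j G (a + 1) (b + 1) (c + 1) := by
      simp only [tz, hX, w3, coeff_add, coeff_C_mul]; ring
    rw [hexp]
    have t1 := ih' a b c hab hbc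
    have t2 := ih' a b (c + 1) hab (by omega)
    have t3 := ih' a (b + 1) c (by omega) (by omega)
    have t4 := ih' (a + 1) b c (by omega) hbc
    have t5 := ih' a (b + 1) (c + 1) (by omega) (by omega)
    have t6 := ih' (a + 1) b (c + 1) (by omega) (by omega)
    have t7 := ih' (a + 1) (b + 1) c (by omega) (by omega)
    have t8 := ih' (a + 1) (b + 1) (c + 1) (by omega) (by omega)
    positivity

section one
variable (j : ℕ) (G : ℝ[X]) (u : ℝ)

theorem one_f : ((1 + C u * X) * G : ℝ[X]) = X ^ 0 * G + C u * (X ^ 1 * G) := by ring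
theorem one_Xf : (X * ((1 + C u * X) * G) : ℝ[X]) = X ^ 1 * G + C u * (X ^ 2 * G) := by ring
theorem one_XXf : (X ^ 2 * ((1 + C u * X) * G) : ℝ[X]) = X ^ 2 * G + C u * (X ^ 3 * G) := by ring
theorem XG : (X * G : ℝ[X]) = X ^ 1 * G := by ring

theorem L1 : w3 j ((1 + C u * X) * G) (X * ((1 + C u * X) * G)) (X ^ 2 * G) = tz j G 0 1 2 := by
  rw [one_Xf, one_f]; simp only [tz, w3, coeff_add, coeff_C_mul]; ring

theorem L2 : w3 j ((1 + C u * X) * G) (X * G) (X * ((1 + C u * X) * G)) = u * tz j G 0 1 2 := by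
  rw [one_Xf, one_f, XG]; simp only [tz, w3, coeff_add, coeff_C_mul]; ring

theorem L3 : w3 j ((1 + C u * X) * G) (X * G) (X ^ 2 * ((1 + C u * X) * G))
    = tz j G 0 1 2 + u * tz j G 0 1 3 := by
  rw [one_XXf, one_f, XG]; simp only [tz, w3, coeff_add, coeff_C_mul]; ring

theorem L4 : w3 j ((1 + C u * X) * G) (X * G) (X ^ 2 * G) = tz j G 0 1 2 := by
  rw [one_f, XG]; simp only [tz, w3, coeff_add, coeff_C_mul]; ring

end one

section two
variable (j : ℕ) (G : ℝ[X]) (u v : ℝ)

theorem two_f : ((1 + C u * X) * ((1 + C v * X) * G) : ℝ[X])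
    = X ^ 0 * G + C (u + v) * (X ^ 1 * G) + C (u * v) * (X ^ 2 * G) := by
  rw [C_add, C_mul]; ring
theorem two_Xf : (X * ((1 + C u * X) * ((1 + C v * X) * G)) : ℝ[X])
    = X ^ 1 * G + C (u + v) * (X ^ 2 * G) + C (u * v) * (X ^ 3 * G) := by
  rw [C_add, C_mul]; ring

theorem L5 : w3 j ((1 + C u * X) * ((1 + C v * X) * G)) (X * ((1 + C u * X) * ((1 + C v * X) * G)))
    (X ^ 2 * G) = tz j G 0 1 2 - u * v * tz j G 0 2 3 - (u + v) * (u * v) * tz j G 1 2 3 := by
  rw [two_Xf, two_f]; simp only [tz, w3, coeff_add, coeff_C_mul]; ring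

theorem L6 : w3 j ((1 + C u * X) * ((1 + C v * X) * G)) (X * ((1 + C v * X) * G))
    (X ^ 2 * ((1 + C u * X) * G))
    = tz j G 0 1 2 + u * tz j G 0 1 3 + u * v * tz j G 0 2 3 + u * v * v * tz j G 1 2 3 := by
  rw [two_f, one_Xf, one_XXf]; simp only [tz, w3, coeff_add, coeff_C_mul]; ring

theorem L7 : w3 j ((1 + C u * X) * ((1 + C v * X) * G)) (X * ((1 + C v * X) * G))
    (X ^ 2 * G) = tz j G 0 1 2 := by
  rw [two_f, one_Xf]; simp only [tz, w3, coeff_add, coeff_C_mul]; ring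

end two

section three
variable (j : ℕ) (G : ℝ[X]) (u v w : ℝ)

theorem three_f : ((1 + C u * X) * ((1 + C v * X) * ((1 + C w * X) * G)) : ℝ[X])
    = X ^ 0 * G + C (u + v + w) * (X ^ 1 * G) + C (u * v + u * w + v * w) * (X ^ 2 * G)
      + C (u * v * w) * (X ^ 3 * G) := by
  simp only [C_add, C_mul]; ring

theorem L9 :
    w3 j ((1 + C u * X) * ((1 + C v * X) * ((1 + C w * X) * G)))
        (X * ((1 + C v * X) * ((1 + C w * X) * G))) (X ^ 2 * ((1 + C u * X) * G))
      + w3 j ((1 + C u * X) * ((1 + C v * X) * ((1 + C w * X) * G)))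
        (X * ((1 + C u * X) * ((1 + C w * X) * G))) (X ^ 2 * ((1 + C v * X) * G))
      + w3 j ((1 + C u * X) * ((1 + C v * X) * ((1 + C w * X) * G)))
        (X * ((1 + C u * X) * ((1 + C v * X) * G))) (X ^ 2 * ((1 + C w * X) * G))
    = 3 * tz j G 0 1 2 + (u + v + w) * tz j G 0 1 3 + (u * v + u * w + v * w) * tz j G 0 2 3
      + 3 * (u * v * w) * tz j G 1 2 3 := by
  rw [three_f, two_Xf, two_Xf, two_Xf, one_XXf, one_XXf, one_XXf]
  simp only [tz, w3, coeff_add, coeff_C_mul]; ring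

end three

end Pool.Agent.H73.TP
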